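import Pool.Agent.Helper88.AD.Stmts

/-! Packet AD-R1. -/

namespace Pool.Agent.Helper18.AD

open Pool.Agent.Helper88.AD

variable {N : ℕ}

abbrev F1 (N : ℕ) : Type := Lg N →₀ EE N
abbrev F2 (N : ℕ) : Type := Lg N × Lg N →₀ EE N

noncomputable def P1 (m : Bx N) : F1 N →ₗ[ℚ] F1 N := Finsupp.mapRange.linearMap (mu m)
noncomputable def P2 (m : Bx N) : F2 N →ₗ[ℚ] F2 N := Finsupp.mapRange.linearMap (mu m)
noncomputable def Q (m : Bx N) : F1 N →ₗ[ℚ] F1 N :=
  Finsupp.lmapDomain (EE N) ℚ (fun z : Lg N => (m :: z.1, z.2))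
noncomputable def Qa (m : Bx N) : F2 N →ₗ[ℚ] F2 N :=
  Finsupp.lmapDomain (EE N) ℚ (fun z : Lg N × Lg N => ((m :: z.1.1, z.1.2), z.2))
noncomputable def Qb (m : Bx N) : F2 N →ₗ[ℚ] F2 N :=
  Finsupp.lmapDomain (EE N) ℚ (fun z : Lg N × Lg N => (z.1, (m :: z.2.1, z.2.2)))
noncomputable def iL (b : Lg N) : F1 N →ₗ[ℚ] F2 N :=
  Finsupp.lmapDomain (EE N) ℚ (fun z : Lg N => (b, z))
noncomputable def iR (b : Lg N) : F1 N →ₗ[ℚ] F2 N :=
  Finsupp.lmapDomain (EE N) ℚ (fun z : Lg N => (z, b))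
noncomputable def Sw : F2 N →ₗ[ℚ] F2 N :=
  Finsupp.lmapDomain (EE N) ℚ (fun z : Lg N × Lg N => (z.2, z.1))
noncomputable def io (b : Lg N) : EE N →ₗ[ℚ] F1 N := Finsupp.lsingle b
noncomputable def HH : F1 N →ₗ[ℚ] F2 N := Finsupp.lsum ℚ (fun q => iR q ∘ₗ hM)
noncomputable def BB' : (Lg N × Lg N →₀ ℚ) →ₗ[ℚ] (EE N →ₗ[ℚ] F2 N) :=
  Finsupp.linearCombination ℚ (fun pq => Finsupp.lsingle pq)
noncomputable def DL : F1 N →ₗ[ℚ] F2 N := Finsupp.lsum ℚ (fun l => BB' (dM l))

theorem BB'_apply (d : Lg N × Lg N →₀ ℚ) (v : EE N) :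
    BB' d v = d.sum fun pq c => Finsupp.single pq (c • v) := by
  rw [BB', Finsupp.linearCombination_apply, Finsupp.sum, LinearMap.sum_apply, Finsupp.sum]
  refine Finset.sum_congr rfl fun x _ => ?_
  rw [LinearMap.smul_apply, Finsupp.lsingle_apply, Finsupp.smul_single]

theorem BB'_single (pq : Lg N × Lg N) (c : ℚ) (v : EE N) :
    BB' (Finsupp.single pq c) v = Finsupp.single pq (c • v) := by
  rw [BB'_apply, Finsupp.sum_single_index]
  simp

/-- the name `[b]` -/
abbrev nm (b : Bx N) : Lg N := ([], b)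

theorem hM_single (w : List (Bx N)) (a : Fin N) (c : ℚ) :
    hM (Finsupp.single (w, a) c) = c • hW w a := by
  rw [hM, Finsupp.linearCombination_single]

theorem mu_single (m : Bx N) (w : List (Bx N)) (a : Fin N) (c : ℚ) :
    mu m (Finsupp.single (w, a) c) = Finsupp.single (m :: w, a) c := by
  rw [mu, Finsupp.lmapDomain_apply, Finsupp.mapDomain_single]

theorem P1_single (m : Bx N) (b : Lg N) (v : EE N) :
    P1 m (Finsupp.single b v) = Finsupp.single b (mu m v) := by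
  simp [P1]
theorem P2_single (m : Bx N) (b : Lg N × Lg N) (v : EE N) :
    P2 m (Finsupp.single b v) = Finsupp.single b (mu m v) := by
  simp [P2]
theorem Q_single (m : Bx N) (b : Lg N) (v : EE N) :
    Q m (Finsupp.single b v) = Finsupp.single (m :: b.1, b.2) v := by
  rw [Q, Finsupp.lmapDomain_apply, Finsupp.mapDomain_single]
theorem Qa_single (m : Bx N) (b : Lg N × Lg N) (v : EE N) :
    Qa m (Finsupp.single b v) = Finsupp.single ((m :: b.1.1, b.1.2), b.2) v := by
  rw [Qa, Finsupp.lmapDomain_apply, Finsupp.mapDomain_single]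
theorem Qb_single (m : Bx N) (b : Lg N × Lg N) (v : EE N) :
    Qb m (Finsupp.single b v) = Finsupp.single (b.1, (m :: b.2.1, b.2.2)) v := by
  rw [Qb, Finsupp.lmapDomain_apply, Finsupp.mapDomain_single]
theorem iL_single (b x : Lg N) (v : EE N) :
    iL b (Finsupp.single x v) = Finsupp.single (b, x) v := by
  rw [iL, Finsupp.lmapDomain_apply, Finsupp.mapDomain_single]
theorem iR_single (b x : Lg N) (v : EE N) :
    iR b (Finsupp.single x v) = Finsupp.single (x, b) v := by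
  rw [iR, Finsupp.lmapDomain_apply, Finsupp.mapDomain_single]
theorem Sw_single (b : Lg N × Lg N) (v : EE N) :
    Sw (Finsupp.single b v) = Finsupp.single (b.2, b.1) v := by
  rw [Sw, Finsupp.lmapDomain_apply, Finsupp.mapDomain_single]
theorem HH_single (q : Lg N) (v : EE N) : HH (Finsupp.single q v) = iR q (hM v) := by
  simp [HH]
theorem DL_single (q : Lg N) (v : EE N) : DL (Finsupp.single q v) = BB' (dM q) v := by
  simp [DL]

/-- `h` of a product -/
theorem h_mu (m : Bx N) (v : EE N) :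
    hM (mu m v) = P1 m (hM v) + Q m (hM v) -
      ∑ c, (Finsupp.single (nm (m.1, c)) (mu (c, m.2) v) -
        Finsupp.single (nm (c, m.2)) (mu (m.1, c) v)) := by
  have : (hM ∘ₗ mu m : EE N →ₗ[ℚ] F1 N) = P1 m ∘ₗ hM + Q m ∘ₗ hM -
      ∑ c, (Finsupp.lsingle (nm (m.1, c)) ∘ₗ mu (c, m.2) -
        Finsupp.lsingle (nm (c, m.2)) ∘ₗ mu (m.1, c)) := by
    apply Finsupp.lhom_ext
    rintro ⟨w, a⟩ c
    have hc : (Finsupp.single (w, a) c : EE N) = c • Finsupp.single (w, a) 1 := by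
      rw [Finsupp.smul_single, smul_eq_mul, mul_one]
    rw [hc, map_smul, map_smul]
    congr 1
    simp only [LinearMap.comp_apply, LinearMap.add_apply, LinearMap.sub_apply,
      LinearMap.sum_apply, hM_single, mu_single, one_smul, hW, P1, Q, Finsupp.lsingle_apply, nm]
  have h2 := LinearMap.congr_fun this v
  simpa only [LinearMap.comp_apply, LinearMap.add_apply, LinearMap.sub_apply,
      LinearMap.sum_apply, Finsupp.lsingle_apply] using h2

theorem ext1 {M : Type} [AddCommGroup M] [Module ℚ M] {f g : F1 N →ₗ[ℚ] M}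
    (h : ∀ b v, f (Finsupp.single b v) = g (Finsupp.single b v)) (x : F1 N) : f x = g x := by
  have : f = g := Finsupp.lhom_ext h
  rw [this]

theorem ext2 {M : Type} [AddCommGroup M] [Module ℚ M] {f g : F2 N →ₗ[ℚ] M}
    (h : ∀ b v, f (Finsupp.single b v) = g (Finsupp.single b v)) (x : F2 N) : f x = g x := by
  have : f = g := Finsupp.lhom_ext h
  rw [this]

theorem iR_P (b : Lg N) (m : Bx N) (x : F1 N) : iR b (P1 m x) = P2 m (iR b x) :=
  ext1 (f := iR b ∘ₗ P1 m) (g := P2 m ∘ₗ iR b) (fun c v => by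
    simp only [LinearMap.comp_apply, iR_single, P1_single, P2_single]) x

theorem iR_Q (b : Lg N) (m : Bx N) (x : F1 N) : iR b (Q m x) = Qa m (iR b x) :=
  ext1 (f := iR b ∘ₗ Q m) (g := Qa m ∘ₗ iR b) (fun c v => by
    simp only [LinearMap.comp_apply, iR_single, Q_single, Qa_single]) x

theorem iL_P (b : Lg N) (m : Bx N) (x : F1 N) : iL b (P1 m x) = P2 m (iL b x) :=
  ext1 (f := iL b ∘ₗ P1 m) (g := P2 m ∘ₗ iL b) (fun c v => by
    simp only [LinearMap.comp_apply, iL_single, P1_single, P2_single]) x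

theorem iL_Q (b : Lg N) (m : Bx N) (x : F1 N) : iL b (Q m x) = Qb m (iL b x) :=
  ext1 (f := iL b ∘ₗ Q m) (g := Qb m ∘ₗ iL b) (fun c v => by
    simp only [LinearMap.comp_apply, iL_single, Q_single, Qb_single]) x

/-- (F3) -/
theorem HH_P (m : Bx N) (x : F1 N) :
    HH (P1 m x) = P2 m (HH x) + Qa m (HH x) -
      ∑ c, (iL (nm (m.1, c)) (P1 (c, m.2) x) - iL (nm (c, m.2)) (P1 (m.1, c) x)) := by
  have := ext1 (f := HH ∘ₗ P1 m) (g := P2 m ∘ₗ HH + Qa m ∘ₗ HH -
      ∑ c, (iL (nm (m.1, c)) ∘ₗ P1 (c, m.2) - iL (nm (c, m.2)) ∘ₗ P1 (m.1, c))) (fun q v => by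
    simp only [LinearMap.comp_apply, LinearMap.add_apply, LinearMap.sub_apply,
      LinearMap.sum_apply, P1_single, HH_single, iL_single, h_mu, map_add, map_sub, map_sum,
      iR_single, iR_P, iR_Q]) x
  simpa only [LinearMap.comp_apply, LinearMap.add_apply, LinearMap.sub_apply,
      LinearMap.sum_apply] using this

theorem HH_Q (m : Bx N) (x : F1 N) : HH (Q m x) = Qb m (HH x) :=
  ext1 (f := HH ∘ₗ Q m) (g := Qb m ∘ₗ HH) (fun q v => by
    simp only [LinearMap.comp_apply, Q_single, HH_single]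
    exact ext1 (f := iR (m :: q.1, q.2)) (g := Qb m ∘ₗ iR q) (fun b v => by
      simp only [LinearMap.comp_apply, iR_single, Qb_single]) _) x

theorem Sw_P (m : Bx N) (x : F2 N) : Sw (P2 m x) = P2 m (Sw x) :=
  ext2 (f := Sw ∘ₗ P2 m) (g := P2 m ∘ₗ Sw) (fun c v => by
    simp only [LinearMap.comp_apply, Sw_single, P2_single]) x
theorem Sw_Qa (m : Bx N) (x : F2 N) : Sw (Qa m x) = Qb m (Sw x) :=
  ext2 (f := Sw ∘ₗ Qa m) (g := Qb m ∘ₗ Sw) (fun c v => by
    simp only [LinearMap.comp_apply, Sw_single, Qa_single, Qb_single]) x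
theorem Sw_Qb (m : Bx N) (x : F2 N) : Sw (Qb m x) = Qa m (Sw x) :=
  ext2 (f := Sw ∘ₗ Qb m) (g := Qa m ∘ₗ Sw) (fun c v => by
    simp only [LinearMap.comp_apply, Sw_single, Qa_single, Qb_single]) x
theorem Sw_iL (b : Lg N) (x : F1 N) : Sw (iL b x) = iR b x :=
  ext1 (f := Sw ∘ₗ iL b) (g := iR b) (fun c v => by
    simp only [LinearMap.comp_apply, Sw_single, iL_single, iR_single]) x
theorem Sw_iR (b : Lg N) (x : F1 N) : Sw (iR b x) = iL b x :=
  ext1 (f := Sw ∘ₗ iR b) (g := iL b) (fun c v => by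
    simp only [LinearMap.comp_apply, Sw_single, iL_single, iR_single]) x

theorem BB'_ma (m : Bx N) (d : Lg N × Lg N →₀ ℚ) (v : EE N) :
    BB' (d.mapDomain (fun q => ((m :: q.1.1, q.1.2), q.2))) v = Qa m (BB' d v) := by
  induction d using Finsupp.induction_linear with
  | zero => simp
  | add f g hf hg => rw [Finsupp.mapDomain_add, map_add, map_add, LinearMap.add_apply,
      LinearMap.add_apply, map_add, hf, hg]
  | single pq c => rw [Finsupp.mapDomain_single, BB'_single, BB'_single, Qa_single]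
theorem BB'_mb (m : Bx N) (d : Lg N × Lg N →₀ ℚ) (v : EE N) :
    BB' (d.mapDomain (fun q => (q.1, (m :: q.2.1, q.2.2)))) v = Qb m (BB' d v) := by
  induction d using Finsupp.induction_linear with
  | zero => simp
  | add f g hf hg => rw [Finsupp.mapDomain_add, map_add, map_add, LinearMap.add_apply,
      LinearMap.add_apply, map_add, hf, hg]
  | single pq c => rw [Finsupp.mapDomain_single, BB'_single, BB'_single, Qb_single]
theorem BB'_P (m : Bx N) (d : Lg N × Lg N →₀ ℚ) (v : EE N) :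
    BB' d (mu m v) = P2 m (BB' d v) := by
  induction d using Finsupp.induction_linear with
  | zero => simp
  | add f g hf hg => rw [map_add, LinearMap.add_apply,
      LinearMap.add_apply, map_add, hf, hg]
  | single pq c => rw [BB'_single, BB'_single, P2_single, map_smul]

theorem DL_P (m : Bx N) (x : F1 N) : DL (P1 m x) = P2 m (DL x) :=
  ext1 (f := DL ∘ₗ P1 m) (g := P2 m ∘ₗ DL) (fun c v => by
    simp only [LinearMap.comp_apply, P1_single, DL_single, BB'_P]) x

theorem DL_nm (m : Bx N) (v : EE N) : DL (Finsupp.single (nm m) v) =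
    ∑ c, (iL (nm (m.1, c)) (Finsupp.single (nm (c, m.2)) v) -
      iL (nm (c, m.2)) (Finsupp.single (nm (m.1, c)) v)) := by
  simp only [DL_single, dM, dW, map_sum, map_sub, LinearMap.sum_apply, LinearMap.sub_apply,
    BB'_single, one_smul, iL_single, nm]

theorem DL_Q (m : Bx N) (x : F1 N) :
    DL (Q m x) = Qa m (DL x) + Qb m (DL x) +
      ∑ c, (iR (nm (c, m.2)) (Q (m.1, c) x) - iR (nm (m.1, c)) (Q (c, m.2) x) +
        iL (nm (m.1, c)) (Q (c, m.2) x) - iL (nm (c, m.2)) (Q (m.1, c) x)) := by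
  have := ext1 (f := DL ∘ₗ Q m) (g := Qa m ∘ₗ DL + Qb m ∘ₗ DL +
      ∑ c, (iR (nm (c, m.2)) ∘ₗ (Q (m.1, c)) - iR (nm (m.1, c)) ∘ₗ (Q (c, m.2)) +
        iL (nm (m.1, c)) ∘ₗ (Q (c, m.2)) - iL (nm (c, m.2)) ∘ₗ (Q (m.1, c)))) (fun q v => by
    obtain ⟨l, b⟩ := q
    simp only [LinearMap.comp_apply, LinearMap.add_apply, LinearMap.sub_apply,
      LinearMap.sum_apply, Q_single, DL_single, iL_single, iR_single, dM, dW, map_add, map_sub,
      map_sum, BB'_ma, BB'_mb, BB'_single, one_smul, nm]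
    ) x
  simpa only [LinearMap.comp_apply, LinearMap.add_apply, LinearMap.sub_apply,
      LinearMap.sum_apply] using this

theorem main (w : List (Bx N)) (a : Fin N) :
    HH (hM (Finsupp.single (w, a) 1)) - Sw (HH (hM (Finsupp.single (w, a) 1))) =
      DL (hM (Finsupp.single (w, a) 1)) := by
  induction w with
  | nil =>
    simp only [hM_single, one_smul, hW, map_sum, HH_single, DL_single, iR_single, dM, dW,
      LinearMap.sum_apply, map_sub, LinearMap.sub_apply, BB'_single, Sw_single,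
      Finset.sum_sub_distrib]
    congr 1 <;> exact Finset.sum_comm
  | cons m w ih =>
    set v : EE N := Finsupp.single (w, a) 1 with hv
    have hmv : (Finsupp.single (m :: w, a) 1 : EE N) = mu m v := by rw [hv, mu_single]
    rw [hmv]
    have e1 : P2 m (HH (hM v)) - P2 m (Sw (HH (hM v))) = P2 m (DL (hM v)) := by
      rw [← map_sub, ih]
    have e2 : Qa m (HH (hM v)) - Qa m (Sw (HH (hM v))) = Qa m (DL (hM v)) := by
      rw [← map_sub, ih]
    have e3 : Qb m (HH (hM v)) - Qb m (Sw (HH (hM v))) = Qb m (DL (hM v)) := by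
      rw [← map_sub, ih]
    have s1 : ∑ x : Fin N, ∑ y : Fin N,
        (Finsupp.single (nm (x, y), nm (m.1, x)) (mu (y, m.2) v) : F2 N) =
        ∑ x : Fin N, ∑ y : Fin N, Finsupp.single (nm (y, x), nm (m.1, y)) (mu (x, m.2) v) :=
      Finset.sum_comm
    have s2 : ∑ x : Fin N, ∑ y : Fin N,
        (Finsupp.single (nm (y, m.2), nm (m.1, x)) (mu (x, y) v) : F2 N) =
        ∑ x : Fin N, ∑ y : Fin N, Finsupp.single (nm (x, m.2), nm (m.1, y)) (mu (y, x) v) :=
      Finset.sum_comm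
    have s3 : ∑ x : Fin N, ∑ y : Fin N,
        (Finsupp.single (nm (m.1, y), nm (x, m.2)) (mu (y, x) v) : F2 N) =
        ∑ x : Fin N, ∑ y : Fin N, Finsupp.single (nm (m.1, x), nm (y, m.2)) (mu (x, y) v) :=
      Finset.sum_comm
    have s4 : ∑ x : Fin N, ∑ y : Fin N,
        (Finsupp.single (nm (y, x), nm (x, m.2)) (mu (m.1, y) v) : F2 N) =
        ∑ x : Fin N, ∑ y : Fin N, Finsupp.single (nm (x, y), nm (y, m.2)) (mu (m.1, x) v) :=
      Finset.sum_comm
    have s5 : ∑ x : Fin N, ∑ y : Fin N,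
        (Finsupp.single (nm (m.1, x), nm (x, y)) (mu (y, m.2) v) : F2 N) =
        ∑ x : Fin N, ∑ y : Fin N, Finsupp.single (nm (m.1, y), nm (y, x)) (mu (x, m.2) v) :=
      Finset.sum_comm
    have s8 : ∑ x : Fin N, ∑ y : Fin N,
        (Finsupp.single (nm (x, m.2), nm (y, x)) (mu (m.1, y) v) : F2 N) =
        ∑ x : Fin N, ∑ y : Fin N, Finsupp.single (nm (y, m.2), nm (x, y)) (mu (m.1, x) v) :=
      Finset.sum_comm
    simp only [h_mu, map_add, map_sub, map_sum, HH_P, HH_Q, HH_single, Sw_P, Sw_Qa, Sw_Qb,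
      Sw_iL, Sw_iR, DL_P, DL_Q, DL_nm, iR_P, iR_Q, iL_P, iL_Q, Finset.sum_sub_distrib,
      Finset.sum_add_distrib, iL_single, iR_single, Sw_single]
    rw [s1, s2, s3, s4, s5, s8, ← e1, ← e2, ← e3]
    abel

theorem stmtR1 : StmtR1 := by
  intro N v
  have hsw : ∀ v' : EE N, ∀ q : Lg N, (hM v').mapDomain (fun p => (q, p)) =
      Sw (iR q (hM v')) := by
    intro v' q
    rw [Sw_iR]; rfl
  have key : HH (hM v) - Sw (HH (hM v)) = DL (hM v) := by
    have : (HH ∘ₗ hM - Sw ∘ₗ HH ∘ₗ hM : EE N →ₗ[ℚ] F2 N) = DL ∘ₗ hM := by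
      apply Finsupp.lhom_ext
      rintro ⟨w, a⟩ c
      have hc : (Finsupp.single (w, a) c : EE N) = c • Finsupp.single (w, a) 1 := by
        rw [Finsupp.smul_single, smul_eq_mul, mul_one]
      rw [hc, map_smul, map_smul]
      congr 1
      exact main w a
    exact LinearMap.congr_fun this v
  have h1 : ((hM v).sum fun q v' => (hM v').mapDomain fun p => (p, q)) = HH (hM v) := by
    rw [HH, Finsupp.lsum_apply]; rfl
  have h2 : ((hM v).sum fun q v' => (hM v').mapDomain fun p => (q, p)) = Sw (HH (hM v)) := by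
    rw [← h1, Finsupp.sum, Finsupp.sum, map_sum]
    refine Finset.sum_congr rfl fun q _ => ?_
    exact hsw _ _
  have h3 : ((hM v).sum fun l v' => (dM l).sum fun pq c => Finsupp.single pq (c • v')) =
      DL (hM v) := by
    rw [DL, Finsupp.lsum_apply]
    refine Finset.sum_congr rfl fun q _ => ?_
    exact (BB'_apply _ _).symm
  rw [h1, h2, h3]
  exact key

end Pool.Agent.Helper18.AD
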